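import Mathlib
import Pool.Agent.Lib.MP_af06f6_co.D.Defs
import Pool.Agent.Lib.MP_af06f6_co.G.Stm

/-!
# MP_af06f6_co, lower bound: the exact case, statements (proofs in the docstrings)

Notation: `f₀, f₁` adjacent faces, `s₀ = tl f₀`, `s₁ = tl f₁`, `h = s₀s₁/(s₀+s₁)`, `y = s₁/(s₀+s₁)`, so
`cot σ₀ = 1/s₀ = y/h`, `cot σ₁ = (1-y)/h`. For a face `g` adjacent to both, `ξ = ⟪g,d⟫/(2 tl g)` and (D2)
`cot σ_g = 1/tl g = (ξ² + h² - y(1-y))/h`.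
-/

open Set

namespace Pool.Agent.Lib.MP_af06f6_co

/-- the function to be minimised -/
noncomputable def FF (w : ℝ) : ℝ :=
  2 * w + 18 * w / (w ^ 2 + 3) + 6 * w / (w ^ 2 - 1) + 12 * w / (w ^ 2 + 7)

noncomputable def dA (d h y : ℝ) : ℝ := d ^ 2 + y ^ 2 + h ^ 2 - 1 / 4
noncomputable def dB (d h y : ℝ) : ℝ := d ^ 2 + (1 - y) ^ 2 + h ^ 2 - 1 / 4

/-- length of the exact configuration with `w + 1` chain faces -/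
noncomputable def Lex (w : ℕ) (x0 h y : ℝ) : ℝ :=
  3 * h * (1 / x0 + 1 / (w - x0) +
    ∑ i ∈ Finset.range w, (1 / dA (i + 1 / 2 - x0) h y + 1 / dB (i + 1 / 2 - x0) h y))

noncomputable def hh (f₀ f₁ : E3) : ℝ := tl f₀ * tl f₁ / (tl f₀ + tl f₁)
noncomputable def yy (f₀ f₁ : E3) : ℝ := tl f₁ / (tl f₀ + tl f₁)
noncomputable def xi (d g : E3) : ℝ := inner ℝ g d / (2 * tl g)

/-! ## Real analysis -/

/-- X8a. Proof: termwise, with `E = d² + h² - 1/4 ≥ 0.49`: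
`1/(E+y²) + 1/(E+(1-y)²) - 1/E - 1/(E+1) = -y²/(E(E+y²)) + y(2-y)/((E+1)(E+(1-y)²))`, positive iff
`(2-y)E(E+y²) > y(E+1)(E+(1-y)²)`; since `(1-y)² ≤ 1`, `y² ≥ 0` it is enough that `(2-y)E² > y(E+1)²`, true since
`(2-y)/y ≥ (2-0.183)/0.183 > 9.9` and `(1+1/E)² ≤ (1+1/0.49)² < 9.3`. -/
def Stm_X8a : Prop := ∀ (w : ℕ) (x0 h y : ℝ), 1 ≤ w → 0 < x0 → x0 < w → 0 < h → 0.74 ≤ h ^ 2 → 0 < y → y ≤ 0.183 →
  Lex w x0 h 0 < Lex w x0 h y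

/-- X8b (shortening the chain). By the symmetry `x0 ↦ w - x0` (reflect the sum) assume `x0 ≤ w/2`. With
`ρ = w - 1 - x0 ≥ 3/2`: `Lex w x0 h 0 - Lex (w-1) x0 h 0 = 3h(1/(ρ+1) - 1/ρ + 1/E + 1/(E+1))`,
`E = (ρ+1/2)² + h² - 1/4 = s + H`, `s = ρ(ρ+1) ≥ 15/4`, `H = h²`. `1/(s+H) + 1/(s+H+1) ≥ 1/s` iff
`s² ≥ H(H+1)`, true since `H ≤ 3`, `s² ≥ 14 > 12`. -/
def Stm_X8b : Prop := ∀ (w : ℕ) (x0 h : ℝ), 5 ≤ w → 0 < x0 → x0 < w → 0 < h → 0.74 ≤ h ^ 2 → h ^ 2 ≤ 3 →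
  ∃ x0' : ℝ, 0 < x0' ∧ x0' < ((w - 1 : ℕ) : ℝ) ∧ Lex (w - 1) x0' h 0 ≤ Lex w x0 h 0

/-- X8c. `w = 1`: `u = (1/2-x0)² < 1/4`: `1/x0 + 1/(1-x0) = 1/(1/4-u)`, and
`1/(1/4-u) + 1/(u+h²-1/4) = h²/((1/4-u)(u+h²-1/4)) ≥ 4 + 1/(h²-1/4)` (the denominator is maximal at `u = 0`),
`1/(u+h²+3/4) ≥ 1/(h²+1)`; then `3h(4 + 1/(h²-1/4) + 1/(h²+1)) ≥ 14.97` (true minimum 17.1), one variable. -/
def Stm_X8c : Prop := ∀ (x0 h : ℝ), 0 < x0 → x0 < 1 → 0 < h → 0.74 ≤ h ^ 2 → h ^ 2 ≤ 3 → 14.97 ≤ Lex 1 x0 h 0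

/-- X8d. `w = 2`, `x0 = 1 + u`, `s = u² < 1`, `H = h²`:
`Lex = 3h(2/(1-s) + 2(H+s)/((H+s)²-s) + 2(H+1+s)/((H+1+s)²-s))`; the minimum is 15 (at `s = 0`, `h = 1`); at `s = 0`
it is `6(v + 1/v)`, `v = h + 1/h ≥ 2`. Either show monotonicity in `s` or clear denominators and use the
bivariate positivity tool `Tools/Bern.lean` (`AF06.Bern.PE.pos_of_auto`) or `Tools/PBernMain.lean` on `s ∈ [0,1]`,
`h ∈ [0.86, 1.7321]`. -/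
def Stm_X8d : Prop := ∀ (x0 h : ℝ), 0 < x0 → x0 < 2 → 0 < h → 0.74 ≤ h ^ 2 → h ^ 2 ≤ 3 → 14.97 ≤ Lex 2 x0 h 0

/-- X8e. `w = 4`, `x0 = 2 + u`, `s = u² < 4`: `Lex = 3h(4/(4-s) + 2(H+s)/((H+s)²-s) + 2(H+1+s)/((H+1+s)²-s)
+ 2(H+2+s)/((H+2+s)²-9s) + 2(H+3+s)/((H+3+s)²-9s))`; minimum 15.068 at `s = 0`, `H ≈ 2.98`. Tool as in X8d
(all denominators are positive). -/
def Stm_X8e : Prop := ∀ (x0 h : ℝ), 0 < x0 → x0 < 4 → 0 < h → 0.74 ≤ h ^ 2 → h ^ 2 ≤ 3 → 14.97 ≤ Lex 4 x0 h 0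

/-- X8f. `w = 3`, `x0 = 3/2 + u'`, `u = u'² < 9/4`, `H = h²`:
`Lex = 3h(3/(9/4-u) + 1/(u+H-1/4) + 1/(u+H+3/4) + 2P/(P²-4u) + 2Q/(Q²-4u))`, `P = H+3/4+u`, `Q = H+7/4+u`; at
`u = 0` it is `FF (2h)`. With `p = H+3/4`, `q = H+7/4` the difference to `u = 0` is `3hu` times
`(4/3)/(9/4-u) - 1/((H-1/4)(H-1/4+u)) - 1/(pP) - 2(P-4)/(p(P²-4u)) - 2(Q-4)/(q(Q²-4u))`, which is `≥ 0` for
`u ∈ [0,9/4)`, `H ∈ [1.35, 3]` (minimum 0.0101 at `u = 0`, `H = 1.35`): clear denominators, tool as in X8d in the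
variables `u, H`. -/
def Stm_X8f : Prop := ∀ (x0 h : ℝ), 0 < x0 → x0 < 3 → 0 < h → 1.35 ≤ h ^ 2 → h ^ 2 ≤ 3 → FF (2 * h) ≤ Lex 3 x0 h 0

/-- X8g. `w = 3`, `H ≤ 1.35`: minimum 15.044 (at `u = 0`, `H = 1.35`). Tool as in X8d in the variables `u, h`. -/
def Stm_X8g : Prop := ∀ (x0 h : ℝ), 0 < x0 → x0 < 3 → 0 < h → 0.74 ≤ h ^ 2 → h ^ 2 ≤ 1.35 → 14.97 ≤ Lex 3 x0 h 0

/-- X8 (summary). Proof: `y² ≤ 0.0111 H`, so `H ≥ 0.75/1.0111 > 0.7416 ≥ 0.74`, `y ≤ 0.1052·√3 < 0.183`; X8a, then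
X8b repeatedly (induction on `w`) down to `w ≤ 4`, then X8c..X8g. -/
def Stm_X8 : Prop := ∀ (w : ℕ) (x0 h y : ℝ), 1 ≤ w → 0 < x0 → x0 < w → 0 < h → 0 < y → y ≤ 0.1052 * h → h ^ 2 ≤ 3 →
  3 / 4 ≤ h ^ 2 + y ^ 2 → (∃ w' : ℝ, 1 < w' ∧ FF w' < Lex w x0 h y) ∨ 14.97 < Lex w x0 h y

/-- X8m. `FF` has a minimum on `(1,∞)`. Proof: continuous, tends to `∞` at `1+` and at `∞`; e.g. outside the
compact `[1.1, 8]` it is `> 16 > FF(2.704)` (`6w/(w²-1) ≥ 6/(2·0.1)...`, `2w`), inside take the minimum. -/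
def Stm_X8m : Prop := ∃ w₀ : ℝ, 1 < w₀ ∧ ∀ w : ℝ, 1 < w → FF w₀ ≤ FF w

/-- X6a (closure of a middle chain face). Let `q = √(h² + (ξ²+h²-y(1-y))²)`. With `P = ξ²+h²+y²`, `Q = ξ²+h²+(1-y)²`:
`dA(ξ±1/2) = P ± ξ`, `dB(ξ±1/2) = Q ± ξ`, `PQ - ξ² = q²`. The imaginary part of
`(P+ξ+iq)(P-ξ+iq)(Q+ξ+iq)(Q-ξ+iq)` is `q(e₃ - q² e₁)`, `e₁ = 2(P+Q)`, `e₃ = 2Q(P²-ξ²)+2P(Q²-ξ²) = 2(P+Q)(PQ-ξ²)`, so it
is `0`; the sum of the four arguments is in `(0,2π)` and its sine is `0`, so it is `π`. -/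
def Stm_X6a : Prop := ∀ ξ h y : ℝ, 0 < h → 0 < dA (ξ - 1 / 2) h y → 0 < dA (ξ + 1 / 2) h y →
  0 < dB (ξ - 1 / 2) h y → 0 < dB (ξ + 1 / 2) h y →
  Real.arctan (√(h ^ 2 + (ξ ^ 2 + h ^ 2 - y * (1 - y)) ^ 2) / dA (ξ - 1 / 2) h y) +
  Real.arctan (√(h ^ 2 + (ξ ^ 2 + h ^ 2 - y * (1 - y)) ^ 2) / dA (ξ + 1 / 2) h y) +
  Real.arctan (√(h ^ 2 + (ξ ^ 2 + h ^ 2 - y * (1 - y)) ^ 2) / dB (ξ - 1 / 2) h y) +
  Real.arctan (√(h ^ 2 + (ξ ^ 2 + h ^ 2 - y * (1 - y)) ^ 2) / dB (ξ + 1 / 2) h y) = Real.pi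

/-- X6b (closure of an end face): three factors `(ξ+iq)(P-ξ+iq)(Q-ξ+iq)`, imaginary part `q(e₂ - q²)`,
`e₂ = ξ(P-ξ) + ξ(Q-ξ) + (P-ξ)(Q-ξ) = PQ - ξ² = q²`. -/
def Stm_X6b : Prop := ∀ ξ h y : ℝ, 0 < h → 0 < ξ → 0 < dA (ξ - 1 / 2) h y → 0 < dB (ξ - 1 / 2) h y →
  Real.arctan (√(h ^ 2 + (ξ ^ 2 + h ^ 2 - y * (1 - y)) ^ 2) / ξ) +
  Real.arctan (√(h ^ 2 + (ξ ^ 2 + h ^ 2 - y * (1 - y)) ^ 2) / dA (ξ - 1 / 2) h y) +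
  Real.arctan (√(h ^ 2 + (ξ ^ 2 + h ^ 2 - y * (1 - y)) ^ 2) / dB (ξ - 1 / 2) h y) = Real.pi

/-- X6c (closure of `f₁`). `q = √(h²+(1-y)²)`, `dB(i+1/2-x0) = q² + ξ_i ξ_{i+1}` with `ξ_i = i - x0`, so
`arctan(q/dB) = arctan(ξ_{i+1}/q) - arctan(ξ_i/q)`; telescoping; `arctan(q/x0) = π/2 - arctan(x0/q)`. -/
def Stm_X6c : Prop := ∀ (w : ℕ) (x0 h y : ℝ), 0 < h → 0 < x0 → x0 < w →
  (∀ i < w, 0 < dB (i + 1 / 2 - x0) h y) →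
  Real.arctan (√(h ^ 2 + (1 - y) ^ 2) / x0) + Real.arctan (√(h ^ 2 + (1 - y) ^ 2) / (w - x0)) +
    ∑ i ∈ Finset.range w, Real.arctan (√(h ^ 2 + (1 - y) ^ 2) / dB (i + 1 / 2 - x0) h y) = Real.pi

/-- X6d (Jensen bound). `u₁² + u₂² + u₃² ≤ 9/2` for the three slopes at an interstice. `D = dB d h y`,
`u₁² = (h²+(1-y)²)/D²`, `u₂,₃² = (h² + (ξ²+h²-y(1-y))²)/D²` with `ξ = d ∓ 1/2`. Proof: `ξ² = d² ∓ d + 1/4`, so with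
`A = d² + 1/4 + h² - y + y² = D - 1/2 + y` the sum of the last two squares is `2A² + 2d²`, and
`d² = D + 1/4 - (1-y)² - h²`. The claim becomes `h² + y² + 4yD ≤ (5/2) D²`. `D ≥ (1-y)² + h² - 1/4 ≥ 1.15`,
`h² + y² ≤ D + 1/4 - (1-y)² + y² ≤ D`, and `1 + 4y ≤ (5/2) D`. -/
def Stm_X6d : Prop := ∀ d h y : ℝ, 0.74 ≤ h ^ 2 → 0 ≤ y → y ≤ 0.183 →
  0 < dB d h y ∧
  (h ^ 2 + (1 - y) ^ 2) / dB d h y ^ 2 +
  (h ^ 2 + ((d - 1 / 2) ^ 2 + h ^ 2 - y * (1 - y)) ^ 2) / dB d h y ^ 2 +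
  (h ^ 2 + ((d + 1 / 2) ^ 2 + h ^ 2 - y * (1 - y)) ^ 2) / dB d h y ^ 2 ≤ 9 / 2

/-! ## The sum lemma (abstract) -/

open Classical in
/-- X5. `W` = finite set of vertices (those not on `f₀`), with `t > 0` and degree `≥ 3`. Outer faces: `gs 0, …, gs w`
and `f₁`. `T i` = length at the model vertex of the interstice `i < w` (between `gs i`, `gs (i+1)`, `f₁`), `rr` = radii.
Proof. Call `v ∈ W` trivial if it is on `f₁`, `gs i`, `gs (i+1)` for some `i < w`; this `i` is unique for `v` (h3) and `v`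
for `i` (h4). Let `N` = set of `i < w` without trivial vertex. A nontrivial `v` is on at most two outer faces (h3: at
most two of the `gs`, consecutive; if two, it is not on `f₁`). For a nontrivial `v`:
`deg(v) t_v ≥ 3 t_v ≥ (3/2) ∑_{outer f ∋ v} t_v ≥ (3/2) ∑_{outer f ∋ v} rr f · arctan(t_v/rr f)` (`arctan u ≤ u`). For each
outer face `f` the sum of `arctan(t_v/rr f)` over the nontrivial `v ∈ W` on `f` is, by the closure h5/h6 minus the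
trivial ones (whose `t_v = T i`), the sum of `arctan(T i/rr f)` over the `i ∈ N` for which `f` is one of the three
faces of the interstice. So `∑_{v∈W} deg t ≥ 3 ∑_{i∉N} T i + (3/2) ∑_{i∈N} ∑_{3 faces} rr f arctan(T i/rr f)`, and for
`i ∈ N` with `u = T i/rr f`: `rr f arctan u = T i (arctan u)/u ≥ T i · 3/(3+u²)` (`arctan u ≥ 3u/(3+u²)` for `u ≥ 0`),
`∑ 3/(3+u²) ≥ 9/(3 + (∑u²)/3) ≥ 2` by convexity and h7. -/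
def Stm_X5 : Prop := ∀ (α β : Type) (W : Finset α) (I : α → β → Prop) (t : α → ℝ) (dg : α → ℝ) (f₁ : β) (w : ℕ)
  (gs : ℕ → β) (T : ℕ → ℝ) (rr : β → ℝ),
  (∀ v ∈ W, 0 < t v) → (∀ v ∈ W, 3 ≤ dg v) → (∀ i ≤ w, 0 < rr (gs i)) → 0 < rr f₁ → (∀ i < w, 0 < T i) →
  (∀ i ≤ w, ∀ j ≤ w, gs i = gs j → i = j) → (∀ i ≤ w, gs i ≠ f₁) →
  (∀ v ∈ W, ∀ i ≤ w, ∀ j ≤ w, i < j → I v (gs i) → I v (gs j) → j = i + 1) →
  (∀ v ∈ W, ∀ i < w, I v f₁ → I v (gs i) → I v (gs (i + 1)) → t v = T i) →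
  (∀ v ∈ W, ∀ v' ∈ W, ∀ i < w, I v f₁ → I v (gs i) → I v (gs (i + 1)) →
    I v' f₁ → I v' (gs i) → I v' (gs (i + 1)) → v = v') →
  (∑ v ∈ W.filter (fun v => I v f₁), Real.arctan (t v / rr f₁) = ∑ i ∈ Finset.range w, Real.arctan (T i / rr f₁)) →
  (∀ j ≤ w, ∑ v ∈ W.filter (fun v => I v (gs j)), Real.arctan (t v / rr (gs j)) =
    (if 0 < j then Real.arctan (T (j - 1) / rr (gs j)) else 0) +
    (if j < w then Real.arctan (T j / rr (gs j)) else 0)) →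
  (∀ i < w, (T i / rr f₁) ^ 2 + (T i / rr (gs i)) ^ 2 + (T i / rr (gs (i + 1))) ^ 2 ≤ 9 / 2) →
  3 * ∑ i ∈ Finset.range w, T i ≤ ∑ v ∈ W, dg v * t v

/-! ## Geometry of the exact case -/

/-- X2 (the quadratic). For `v ∈ V`, put `a = ⟪v,T⟫`, `b = ⟪v,e⟫`, `c = ⟪v,d⟫`. For every face `g` adjacent to both
(`ξ = xi d g`): `(⟪v,g⟫ - 1)/tl g = (a-1)(ξ²+h²-y(1-y))/h - 2ha - b(1-2y) + 2cξ` (D2; `(s₀-s₁)/(s₀+s₁) = 1-2y`), and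
`a < 1` unless `v` is on both `f₀, f₁` (`T` is in the open segment of `f₀, f₁`: `T = (s₁ f₀ + s₀ f₁)/(s₀+s₁)`).
So this is a concave quadratic in `ξ`, `≤ 0` at every chain face, `0` at those containing `v`: no chain face lies
strictly between two chain faces containing `v`. -/
def Stm_X2 : Prop := ∀ V F : Finset E3, Mid V F → ∀ f₀ f₁ T e d, Coord V F f₀ f₁ T e d → Adj F V f₀ f₁ →
  ∀ v ∈ V, ¬ (inner ℝ v f₀ = (1 : ℝ) ∧ inner ℝ v f₁ = (1 : ℝ)) →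
  ∀ g g' g'', Adj F V g f₀ → Adj F V g f₁ → Adj F V g' f₀ → Adj F V g' f₁ → Adj F V g'' f₀ → Adj F V g'' f₁ →
  xi d g < xi d g' → xi d g' < xi d g'' → inner ℝ v g = (1 : ℝ) → inner ℝ v g'' = (1 : ℝ) → False

/-- X3 (lengths). Let `v ∈ V` be on two chain faces `g, g'` with `ξ' = ξ + 1`, put `d₀ = ξ + 1/2`. If `v` is on `f₀`
(not on `f₁`): `⟪v,f₀⟫ = a + s₀ b = 1`, so `b = -(a-1)/s₀ = -(a-1)y/h`. The quadratic of X2 has the two roots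
`ξ, ξ+1`: sum `-2ch/(a-1) = 2d₀`, so `c = -d₀(a-1)/h`; product
`h²-y(1-y) - h(2ha + b(1-2y))/(a-1) = d₀² - 1/4`, which gives `-h² - y² - 2h²/(a-1) = d₀² - 1/4`, i.e.
`a - 1 = -2h²/D`, `D = dA d₀ h y`. Then `tl v² = a²+b²+c²-1 = (a-1)²(2/(a-1) + (h²+y²+d₀²)/h²) = h²/D²`.
If `v` is on `f₁` (not `f₀`): `a - s₁ b = 1`, `b = (a-1)(1-y)/h`, the same with `y` replaced by `1-y`. -/
def Stm_X3 : Prop := ∀ V F : Finset E3, Mid V F → ∀ f₀ f₁ T e d, Coord V F f₀ f₁ T e d → Adj F V f₀ f₁ →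
  ∀ v ∈ V, ∀ g g', Adj F V g f₀ → Adj F V g f₁ → Adj F V g' f₀ → Adj F V g' f₁ → xi d g' = xi d g + 1 →
  inner ℝ v g = (1 : ℝ) → inner ℝ v g' = (1 : ℝ) →
  (inner ℝ v f₀ = (1 : ℝ) → inner ℝ v f₁ ≠ (1 : ℝ) →
    tl v = hh f₀ f₁ / dA (xi d g + 1 / 2) (hh f₀ f₁) (yy f₀ f₁)) ∧
  (inner ℝ v f₁ = (1 : ℝ) → inner ℝ v f₀ ≠ (1 : ℝ) →
    tl v = hh f₀ f₁ / dB (xi d g + 1 / 2) (hh f₀ f₁) (yy f₀ f₁))

/-- D5 (lower bound for the `z` of a face adjacent to both). Proof: D1, D2, D4: `|ξ| ≤ h/tl C` for one of the two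
common vertices, `1/tl C ≤ (1-xm²)/(2xm)` (`tl C = 2x/(1-x²)`, `x = hx C ≥ xm`), and
`1/tl g = (ξ² + h² - y(1-y))/h ≤ h((1-xm²)²/(4xm²) + 1 - 1/(tl f₀ tl f₁))`, `h = 1/(1/tl f₀ + 1/tl f₁)`,
`y(1-y) = h²/(tl f₀ tl f₁)`, `(1-xm²)²/(4xm²) + 1 = (1+xm²)²/(4xm²)`. -/
def Stm_D5 : Prop := ∀ V F : Finset E3, Mid V F → ∀ f₀ f₁, Adj F V f₀ f₁ → ∀ xm : ℝ, 0 < xm → xm < 1 →
  (∀ v ∈ V, inner ℝ v f₀ = (1 : ℝ) → inner ℝ v f₁ = (1 : ℝ) → xm ≤ hx v) →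
  ∀ g, Adj F V g f₀ → Adj F V g f₁ →
  1 / tl g * (1 / tl f₀ + 1 / tl f₁) ≤ (1 + xm ^ 2) ^ 2 / (4 * xm ^ 2) - 1 / (tl f₀ * tl f₁)

/-- Chain data around `f₀`. -/
structure Chain (V F : Finset E3) (f₀ f₁ d : E3) (w : ℕ) (x0 : ℝ) (gs A : ℕ → E3) (C C' : E3) : Prop where
  w1 : 1 ≤ w
  x0pos : 0 < x0
  x0lt : x0 < w
  adj₀ : ∀ i ≤ w, Adj F V (gs i) f₀
  adj₁ : ∀ i ≤ w, Adj F V (gs i) f₁
  pos : ∀ i ≤ w, xi d (gs i) = i - x0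
  all : ∀ g, Adj F V g f₀ → g ≠ f₁ → ∃ i ≤ w, g = gs i
  cons : ∀ i < w, Adj F V (gs i) (gs (i + 1))
  hA : ∀ i < w, A i ∈ V ∧ inner ℝ (A i) f₀ = (1 : ℝ) ∧ inner ℝ (A i) f₁ ≠ (1 : ℝ) ∧
    inner ℝ (A i) (gs i) = (1 : ℝ) ∧ inner ℝ (A i) (gs (i + 1)) = (1 : ℝ) ∧ (star F (A i)).card = 3
  Ainj : ∀ i < w, ∀ j < w, A i = A j → i = j
  hC : C ∈ V ∧ inner ℝ C f₀ = (1 : ℝ) ∧ inner ℝ C f₁ = (1 : ℝ) ∧ inner ℝ C (gs w) = (1 : ℝ) ∧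
    (star F C).card = 3 ∧ tl C = hh f₀ f₁ / (w - x0)
  hC' : C' ∈ V ∧ inner ℝ C' f₀ = (1 : ℝ) ∧ inner ℝ C' f₁ = (1 : ℝ) ∧ inner ℝ C' (gs 0) = (1 : ℝ) ∧
    (star F C').card = 3 ∧ tl C' = hh f₀ f₁ / x0
  CC : C ≠ C'
  allV : ∀ v ∈ V, inner ℝ v f₀ = (1 : ℝ) → v = C ∨ v = C' ∨ ∃ i < w, v = A i

/-- X1 (chain). Proof. Let `G` = faces `≠ f₁` adjacent to `f₀`; by exactness all are adjacent to `f₁`, so D2, D3, D4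
apply; `ξ` is injective on `G` with gaps `≥ 1`. The vertices of `f₀`: `|V_{f₀}| = |G| + 1` (count the pairs
(vertex of `f₀`, `f₀`-neighbour face at it): two per vertex (A5), two per face (Adj + A3)). Two of them, `C, C'` (D4), are
on `f₁` (exactly two common vertices), so `|G| - 1` are not; each such vertex `v` has degree 3 by exactness, so its
faces are `f₀, g, g'` with `g, g' ∈ G` its `f₀`-neighbours, and `g, g'` are adjacent (A5 for the flag `(v,g)`: its two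
neighbours at `v` are among the other two faces at `v`), so `|ξ-ξ'| = 1` (D3). Different `v` give different pairs `{g,g'}`
(otherwise `f₀, g, g'` would have two common vertices, contradicting the dual of A3). In the order of `ξ` a pair at
distance `1` is consecutive (gaps `≥ 1`), there are `|G| - 1` consecutive pairs, so all gaps are `1`: this gives
`w = |G| - 1`, `gs`, `A`. The common vertex `C` (with `+` in D4) has the `f₀`-neighbours `f₁` and some `g ∈ G` (A5); `g` is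
adjacent to `f₁`, contains `C`; `f₀, f₁, g` are pairwise adjacent at `C`, so `deg C = 3` (`Cfg.link`, available from E1
as a hypothesis). By D4 `ξ_g = h/tl C` is the maximum of `ξ` on `G`, so `g = gs w`, `w - x0 = h/tl C > 0`. Same for `C'`:
`-x0 = -h/tl C'`. So `ξ` takes values of both signs, `w ≥ 1`. -/
def Stm_X1 : Prop := ∀ V F : Finset E3, Mid V F → Cfg V F (fun v f => inner ℝ v f = (1 : ℝ)) hx hx →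
  ∀ f₀ f₁ T e d, Coord V F f₀ f₁ T e d → Adj F V f₀ f₁ →
  ExactAt V F (fun v f => inner ℝ v f = (1 : ℝ)) f₀ f₁ →
  ∃ (w : ℕ) (x0 : ℝ) (gs A : ℕ → E3) (C C' : E3), Chain V F f₀ f₁ d w x0 gs A C C'

/-- X0. If one of the two sides is exact and `f₁` has the largest `tl` among the faces `≠ f₀`, then `h² + y² ≥ 3/4`.
Proof: if `f₀` side exact: X1 and a chain face `g` with `|ξ| ≤ 1/2` (`ξ_i = i - x0`, `0 < x0 < w`); D2: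
`h/tl g = ξ² + h² - y(1-y)`, and `1/tl g ≥ 1/tl f₁ = (1-y)/h`. So `1/4 + h² - y + y² ≥ 1 - y`. If the `f₁` side is
exact, X1 for the pair `(f₁,f₀)` (coordinates `T, -e, d`) gives `g` adjacent to both with `|ξ| ≤ 1/2`, the same
conclusion. -/
def Stm_X0 : Prop := ∀ V F : Finset E3, Mid V F → Cfg V F (fun v f => inner ℝ v f = (1 : ℝ)) hx hx →
  ∀ f₀ f₁, Adj F V f₀ f₁ →
  (ExactAt V F (fun v f => inner ℝ v f = (1 : ℝ)) f₀ f₁ ∨ ExactAt V F (fun v f => inner ℝ v f = (1 : ℝ)) f₁ f₀) →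
  (∀ g ∈ F, g ≠ f₀ → tl g ≤ tl f₁) → 3 / 4 ≤ hh f₀ f₁ ^ 2 + yy f₀ f₁ ^ 2

/-- X7 (comparison with the exact configuration). Proof: `Len = ∑ deg tt(hx v) = ∑ deg tl v`. The vertices of `f₀`
contribute `3(tl C + tl C' + ∑ tl (A i)) = 3h(1/(w-x0) + 1/x0 + ∑ 1/dA(i+1/2-x0))` (X3). For the others apply X5 with
`W = {v ∈ V : not on f₀}`, `T i = h/dB(i+1/2-x0)`, `rr f = tl f/‖f‖ = sin σ_f`, `dg v` = degree, `t = tl`: h3 is X2,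
h4 is X3 (degree not needed), uniqueness: dual of A3 (three faces with two common vertices; `gs i, gs (i+1), f₁`), h5, h6: closure
(`Cfg.face`, `ph = arctan(tl v/rr f)`) minus the known vertices on `f₀`, compared with X6a, X6b, X6c: here
`tl v/rr f = (h/D)·√(1+cot²σ_f) = q/D` with `q = √(h²+(ξ²+h²-y(1-y))²)` for `f = gs i`, `q = √(h²+(1-y)²)` for `f = f₁`.
(`gs i` meets `f₀` in `A (i-1), A i`, or for `i = 0` in `C', A 0`, for `i = w` in `A (w-1), C`: exactly two common vertices.)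
h7 is X6d. -/
def Stm_X7 : Prop := ∀ V F : Finset E3, Mid V F → Cfg V F (fun v f => inner ℝ v f = (1 : ℝ)) hx hx →
  ∀ f₀ f₁ T e d, Coord V F f₀ f₁ T e d → Adj F V f₀ f₁ →
  0.74 ≤ hh f₀ f₁ ^ 2 → yy f₀ f₁ ≤ 0.183 →
  ∀ (w : ℕ) (x0 : ℝ) (gs A : ℕ → E3) (C C' : E3), Chain V F f₀ f₁ d w x0 gs A C C' →
  Lex w x0 (hh f₀ f₁) (yy f₀ f₁) ≤ Len V F (fun v f => inner ℝ v f = (1 : ℝ)) hx

/-- X9 (exact case, summary). Proof: `1/tl f = (1-z²)/(2z)`, `z = hx f`. `z₀ ≥ 14752/16384` gives `1/tl f₀ ≤ 0.10513`, so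
`y = h/tl f₀ ≤ 0.1052 h`; `y > 0`. `z₁ ≤ 9459/16384` gives `1/tl f₁ ≥ 0.57738`, so `h ≤ tl f₁ ≤ 1.73196`, `h² ≤ 3`. X0, D1, X1,
X7, X8. -/
def Stm_X9 : Prop := ∀ V F : Finset E3, Mid V F → Cfg V F (fun v f => inner ℝ v f = (1 : ℝ)) hx hx →
  ∀ f₀ f₁, Adj F V f₀ f₁ → (14752 : ℝ) / 16384 ≤ hx f₀ → hx f₁ ≤ (9459 : ℝ) / 16384 →
  (∀ g ∈ F, g ≠ f₀ → hx g ≤ hx f₁) →
  ExactAt V F (fun v f => inner ℝ v f = (1 : ℝ)) f₀ f₁ →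
  (∃ w' : ℝ, 1 < w' ∧ FF w' < Len V F (fun v f => inner ℝ v f = (1 : ℝ)) hx) ∨
    14.966 ≤ Len V F (fun v f => inner ℝ v f = (1 : ℝ)) hx

end Pool.Agent.Lib.MP_af06f6_co
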